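import Pool.Agent.Q299.GO.Hg

/-! # Project GO (helper74), job GO-Dich: the dichotomy -/

set_option autoImplicit false

namespace Pool.Agent.Q299.GO

open Finset
open Pool.Agent.Q74.KP Pool.Agent.Q74.SF Pool.Agent.Q74.GO
open Pool.Agent.Q16.GO (ev_mono ev_mul ev_add ev_nonneg wt_one_le diff_le vd_abs_le card_pairs pp_le_ph ph_nonneg pp_nonneg
  hh_nonneg tl_anti tl_nonneg)

variable {k : ℕ}

/-- one step, the good part is large -/
theorem num_good {c₁ C₁ κ ε v g p τ C' Q g' p' : ℝ} (hc : 0 < c₁) (hc1 : c₁ ≤ 1) (hC : 1 ≤ C₁) (hQ : Q * c₁ = 4 * C₁)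
    (hv : 0 < v) (hκ : 0 ≤ κ) (h1 : C₁ * κ * Q ≤ 1 / 8) (hε : 0 < ε) (h2 : ε * Q ≤ v / 8) (hg : 0 ≤ g) (hp : p ≤ Q * g)
    (hC' : 0 < C') (hτ : 0 ≤ τ) (h3 : (C' + 2) * τ ≤ c₁ / 4 * (v * g)) (hlow : c₁ * v * g - 2 * τ ≤ g')
    (hup : p' ≤ C₁ * v * (g + κ * p) + ε * p + C' * τ) : c₁ / 2 * (v * g) ≤ g' ∧ p' ≤ Q * g' := by
  have hW : 0 ≤ v * g := by positivity
  have hQ0 : 0 < Q := by
    by_contra hc'
    push Not at hc'
    have : Q * c₁ ≤ 0 := mul_nonpos_of_nonpos_of_nonneg hc' hc.le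
    linarith
  have h2τ : 2 * τ ≤ c₁ / 4 * (v * g) := by
    refine le_trans ?_ h3
    nlinarith
  have h3τ : C' * τ ≤ c₁ / 4 * (v * g) := by
    refine le_trans ?_ h3
    nlinarith
  have h4 : c₁ / 2 * (v * g) ≤ g' := by
    have : 0 ≤ c₁ * (v * g) := by positivity
    linarith
  refine ⟨h4, ?_⟩
  have h5 : C₁ * v * (κ * p) ≤ 1 / 8 * (v * g) := by
    calc C₁ * v * (κ * p) ≤ C₁ * v * (κ * (Q * g)) := by gcongr
      _ = (C₁ * κ * Q) * (v * g) := by ring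
      _ ≤ 1 / 8 * (v * g) := by gcongr
  have h6 : ε * p ≤ 1 / 8 * (v * g) := by
    calc ε * p ≤ ε * (Q * g) := by gcongr
      _ = (ε * Q) * g := by ring
      _ ≤ v / 8 * g := by gcongr
      _ = _ := by ring
  have h7 : C' * τ ≤ 1 / 4 * (v * g) := by
    refine h3τ.trans ?_
    gcongr
  have h8 : 1 * (v * g) ≤ C₁ * (v * g) := by gcongr
  calc p' ≤ C₁ * v * (g + κ * p) + ε * p + C' * τ := hup
    _ = C₁ * (v * g) + C₁ * v * (κ * p) + ε * p + C' * τ := by ring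
    _ ≤ 2 * C₁ * (v * g) := by linarith
    _ = Q * (c₁ / 2 * (v * g)) := by linear_combination (-(v * g) / 2) * hQ
    _ ≤ Q * g' := by gcongr

/-- one step, the good part is small -/
theorem num_bad {c₁ C₁ κ ε v g p τ C' Q p' : ℝ} (hc : 0 < c₁) (hc1 : c₁ ≤ 1) (hC : 1 ≤ C₁) (hQ : Q * c₁ = 4 * C₁)
    (hv : 0 < v) (hκ : 0 ≤ κ) (h1 : C₁ * κ * Q ≤ 1 / 8) (hε : 0 < ε) (h2 : ε * Q ≤ v / 8) (hp : 0 ≤ p)
    (hgp : Q * g ≤ p) (hup : p' ≤ C₁ * v * (g + κ * p) + ε * p + C' * τ) : p' ≤ 1 / 2 * (v * p) + C' * τ := by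
  have hQ0 : 0 < Q := by
    by_contra hc'
    push Not at hc'
    have : Q * c₁ ≤ 0 := mul_nonpos_of_nonpos_of_nonneg hc' hc.le
    linarith
  have hQ1 : 1 ≤ Q := by nlinarith
  have hW : 0 ≤ v * p := by positivity
  have h3 : C₁ * v * g ≤ 1 / 4 * (v * p) := by
    have h4 : C₁ * g ≤ 1 / 4 * p := by
      have h5 : 4 * C₁ * g ≤ c₁ * p := by
        calc 4 * C₁ * g = c₁ * (Q * g) := by linear_combination (-g) * hQ
          _ ≤ c₁ * p := by gcongr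
      nlinarith
    calc C₁ * v * g = v * (C₁ * g) := by ring
      _ ≤ v * (1 / 4 * p) := by gcongr
      _ = _ := by ring
  have h5 : C₁ * v * (κ * p) ≤ 1 / 8 * (v * p) := by
    have h6 : C₁ * κ ≤ 1 / 8 := by
      refine le_trans ?_ h1
      exact le_mul_of_one_le_right (by positivity) hQ1
    calc C₁ * v * (κ * p) = (C₁ * κ) * (v * p) := by ring
      _ ≤ 1 / 8 * (v * p) := by gcongr
  have h6 : ε * p ≤ 1 / 8 * (v * p) := by
    have h7 : ε ≤ v / 8 := by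
      refine le_trans ?_ h2
      exact le_mul_of_one_le_right hε.le hQ1
    calc ε * p ≤ v / 8 * p := by gcongr
      _ = _ := by ring
  calc p' ≤ C₁ * v * (g + κ * p) + ε * p + C' * τ := hup
    _ = C₁ * v * g + C₁ * v * (κ * p) + ε * p + C' * τ := by ring
    _ ≤ 1 / 2 * (v * p) + C' * τ := by linarith

theorem hg_nonneg (A A' : ℝ) {ι : Type} [Fintype ι] (a : ι → Fin k → ℕ) (b : ι → Fin k → ℤ) (t : ℕ) : 0 ≤ hg A A' a b t := by
  unfold hg
  exact div_nonneg (ev_nonneg a b t fun z => mul_nonneg (gi_nonneg _ _ _ _) (abs_nonneg _)) (by positivity)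

theorem hh_le_ph {ι : Type} [Fintype ι] (a : ι → Fin k → ℕ) (b : ι → Fin k → ℤ) {t : ℕ} (ht : 1 ≤ t) :
    hh a b t ≤ ph a b t := by
  have h0 : 0 < √(t : ℝ) ^ nn k := pow_pos (Real.sqrt_pos.2 (by exact_mod_cast ht)) _
  unfold hh ph
  rw [div_le_iff₀ h0, mul_comm, ← ev_mul]
  apply ev_mono
  intro z
  refine (vd_abs_le ht z).trans ?_
  have : wt t z ^ nn k ≤ wt t z ^ (nn k + 1) := pow_le_pow_right₀ (wt_one_le t z) (Nat.le_succ _)
  gcongr

/-- the factor of a step -/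
theorem step_factor {n lam : ℕ} {s r : ℕ} (hs : 1 ≤ s) (hlam : 1 ≤ lam) (hn : 2 * n ≤ lam) (h : lam * s ≤ r) {c : ℝ} (hc : 0 ≤ c)
    {L : ℝ} (hL : 1 ≤ L) (hr : (r : ℝ) ≤ L * s) (hcL : 6 / 7 ≤ (1 + L) ^ (-c)) :
    1 / 2 * √((s : ℝ) / r) ^ n ≤ 7 / 8 * ((s : ℝ) / (s + r : ℕ)) ^ ((n : ℝ) / 2 + c) := by
  have hs0 : (0 : ℝ) < s := by exact_mod_cast hs
  have hlam0 : (1 : ℝ) ≤ lam := by exact_mod_cast hlam
  have h' : (lam : ℝ) * s ≤ r := by exact_mod_cast h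
  have hr0 : (0 : ℝ) < r := by nlinarith
  push_cast
  obtain ⟨x, hx⟩ : ∃ x : ℝ, x = (s : ℝ) / (s + r) := ⟨_, rfl⟩
  have hx0 : 0 < x := by rw [hx]; positivity
  have hx1 : x ≤ 1 := by rw [hx, div_le_one (by positivity)]; linarith
  rw [← hx]
  have hsr : (s : ℝ) / r ≤ 1 / lam := by
    rw [div_le_div_iff₀ hr0 (by linarith)]
    linarith
  have e1 : (s : ℝ) / r = x * (1 + s / r) := by
    rw [hx]
    field_simp
    ring
  have h2 : √((s : ℝ) / r) ^ n ≤ 3 / 2 * x ^ ((n : ℝ) / 2) := by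
    have hy : 0 ≤ (s : ℝ) / r := by positivity
    have h3 : √((s : ℝ) / r) ^ n = ((s : ℝ) / r) ^ ((n : ℝ) / 2) := by
      rw [Real.sqrt_eq_rpow, ← Real.rpow_natCast, ← Real.rpow_mul hy]
      congr 1
      ring
    have h4 : (1 + (s : ℝ) / r) ^ ((n : ℝ) / 2) ≤ 3 / 2 := by
      have h5 : 1 + (s : ℝ) / r ≤ Real.exp (s / r) := by
        have := Real.add_one_le_exp ((s : ℝ) / r)
        linarith
      calc (1 + (s : ℝ) / r) ^ ((n : ℝ) / 2) ≤ Real.exp (s / r) ^ ((n : ℝ) / 2) :=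
            Real.rpow_le_rpow (by positivity) h5 (by positivity)
        _ = Real.exp (s / r * ((n : ℝ) / 2)) := by rw [← Real.exp_mul]
        _ ≤ Real.exp (1 / 4) := by
            apply Real.exp_le_exp.2
            have hn' : 2 * (n : ℝ) ≤ lam := by exact_mod_cast hn
            calc (s : ℝ) / r * ((n : ℝ) / 2) ≤ 1 / lam * ((lam / 2) / 2) := by
                  gcongr
                  linarith
              _ = 1 / 4 := by field_simp; norm_num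
        _ ≤ 3 / 2 := by
            have h6 : (1 : ℝ) - 1 / 4 ≤ Real.exp (-(1 / 4)) := by
              have := Real.add_one_le_exp (-(1 / 4 : ℝ))
              linarith
            rw [Real.exp_neg] at h6
            have h7 : 0 < Real.exp (1 / 4 : ℝ) := Real.exp_pos _
            have h8 : (3 / 4) * Real.exp (1 / 4 : ℝ) ≤ 1 := by
              calc (3 / 4) * Real.exp (1 / 4 : ℝ) ≤ (Real.exp (1 / 4))⁻¹ * Real.exp (1 / 4 : ℝ) := by
                    gcongr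
                    linarith
                _ = 1 := inv_mul_cancel₀ h7.ne'
            linarith
    rw [h3]
    calc ((s : ℝ) / r) ^ ((n : ℝ) / 2) = x ^ ((n : ℝ) / 2) * (1 + (s : ℝ) / r) ^ ((n : ℝ) / 2) := by
          rw [← Real.mul_rpow hx0.le (by positivity), ← e1]
      _ ≤ x ^ ((n : ℝ) / 2) * (3 / 2) := by gcongr
      _ = _ := mul_comm _ _
  have h4 : 6 / 7 ≤ x ^ c := by
    have h5 : 1 / (1 + L) ≤ x := by
      rw [hx, div_le_div_iff₀ (by linarith) (by positivity)]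
      nlinarith
    calc (6 / 7 : ℝ) ≤ (1 + L) ^ (-c) := hcL
      _ = (1 / (1 + L)) ^ c := by rw [Real.rpow_neg (by linarith), one_div, Real.inv_rpow (by linarith)]
      _ ≤ x ^ c := Real.rpow_le_rpow (by positivity) h5 hc
  rw [Real.rpow_add hx0]
  have h6 : 0 ≤ x ^ ((n : ℝ) / 2) := by positivity
  nlinarith


/-- negative powers at comparable times -/
theorem rpow_neg_comp {α L : ℝ} {s t : ℕ} (hα : 0 ≤ α) (hs : 1 ≤ s) (ht : 1 ≤ t) (hL : 0 ≤ L) (h : (t : ℝ) ≤ (1 + L) * s) :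
    (s : ℝ) ^ (-α) ≤ (1 + L) ^ α * (t : ℝ) ^ (-α) := by
  have hs0 : (0 : ℝ) < s := by exact_mod_cast hs
  have ht0 : (0 : ℝ) < t := by exact_mod_cast ht
  have h1 : (t : ℝ) ^ α ≤ (1 + L) ^ α * (s : ℝ) ^ α := by
    rw [← Real.mul_rpow (by linarith) hs0.le]
    exact Real.rpow_le_rpow ht0.le h hα
  rw [Real.rpow_neg hs0.le, Real.rpow_neg ht0.le, ← div_eq_mul_inv, le_div_iff₀ (by positivity)]
  have h2 : 0 < (s : ℝ) ^ α := by positivity
  rw [inv_mul_le_iff₀ h2]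
  linarith

theorem pow_neg_le {α : ℝ} {M s : ℕ} (hs : 1 ≤ s) (h : α ≤ M) : 1 / (s : ℝ) ^ M ≤ (s : ℝ) ^ (-α) := by
  have hs1 : (1 : ℝ) ≤ s := by exact_mod_cast hs
  have hs0 : (0 : ℝ) < s := by linarith
  rw [one_div, ← Real.rpow_natCast, ← Real.rpow_neg hs0.le]
  exact Real.rpow_le_rpow_of_exponent_le hs1 (by linarith)

/-- the first alternative -/
theorem alt1 {n m M lam S₀ : ℕ} {c₁ C₁ Q β L Ct C' ε : ℝ} {g p : ℕ → ℝ} (hc₁ : 0 < c₁) (hc₁1 : c₁ ≤ 1)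
    (hC₁' : 1 ≤ C₁) (hQ : Q * c₁ = 4 * C₁) (hQ1 : 1 ≤ Q) (hβ0 : 0 < β) (hL' : L = (2 + (lam : ℝ)) ^ 2) (hlam1 : 1 ≤ lam)
    (hε0 : 0 < ε) (hε : ε * Q = β / 8) (hC' : 0 < C') (hCt1 : 0 < Ct) (hS₀1 : 1 ≤ S₀) (hM : M = n + m)
    (hg0 : ∀ s, 0 ≤ g s) (hp0' : ∀ s, 0 ≤ p s)
    (facts : ∀ s r : ℕ, S₀ ≤ s → lam * s ≤ r → (r : ℝ) ≤ L * s → ∃ κ τ : ℝ, 0 ≤ κ ∧ C₁ * κ * Q ≤ 1 / 8 ∧ 0 ≤ τ ∧
      τ ≤ Ct / (s : ℝ) ^ (M + 1) ∧ β ≤ √((s : ℝ) / r) ^ n ∧ √((s : ℝ) / r) ≤ 1 ∧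
      c₁ * √((s : ℝ) / r) ^ n * g s - 2 * τ ≤ g (s + r) ∧
      p (s + r) ≤ C₁ * √((s : ℝ) / r) ^ n * (g s + κ * p s) + ε * p s + C' * τ)
    (hm : (1 / 2 : ℝ) ^ m < c₁ / 2) (hS4 : (C' + 2) * Ct * Q * 4 / (c₁ * β) ≤ (S₀ : ℝ))
    {si : ℕ} (hsi : S₀ ≤ si) (hsi1 : p si ≤ Q * g si) (hsi2 : 1 / (si : ℝ) ^ M ≤ p si) :
    ∀ t : ℕ, (1 + lam) * si ≤ t → p t ≤ Q * g t ∧ 1 / Q / (t : ℝ) ^ M ≤ g t := by
  have hQ0 : 0 < Q := by linarith
  have hsi0 : 1 ≤ si := hS₀1.trans hsi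
  have step : ∀ s r : ℕ, si ≤ s → lam * s ≤ r → (r : ℝ) ≤ L * s → p s ≤ Q * g s →
      1 / Q / (s : ℝ) ^ M ≤ g s →
      p (s + r) ≤ Q * g (s + r) ∧ 1 / Q / ((s + r : ℕ) : ℝ) ^ M ≤ g (s + r) := by
    intro s r h1 h2 h3 h4 h5
    obtain ⟨κ, τ, hκ, hκ1, hτ, hτ1, hβu, hu1, hlow, hup⟩ := facts s r (hsi.trans h1) h2 h3
    have hs1 : 1 ≤ s := hsi0.trans h1
    have hs0 : (0 : ℝ) < s := by exact_mod_cast hs1
    have hsr : s ≤ r := by nlinarith
    have hr0 : (0 : ℝ) < r := by exact_mod_cast (hs1.trans hsr)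
    have hsr' : (s : ℝ) ≤ r := by exact_mod_cast hsr
    have hv : 0 < √((s : ℝ) / r) ^ n := lt_of_lt_of_le hβ0 hβu
    have hgn := hg0 s
    have htail : (C' + 2) * τ ≤ c₁ / 4 * (√((s : ℝ) / r) ^ n * g s) := by
      have h6 : τ ≤ Ct * Q / s * g s := by
        refine hτ1.trans ?_
        calc Ct / (s : ℝ) ^ (M + 1) = Ct * Q / s * (1 / Q / (s : ℝ) ^ M) := by
              rw [pow_succ]
              field_simp
          _ ≤ Ct * Q / s * g s := by gcongr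
      have h7 : (C' + 2) * (Ct * Q / s) ≤ c₁ / 4 * β := by
        have h8 : (C' + 2) * Ct * Q * 4 / (c₁ * β) ≤ s := hS4.trans (by exact_mod_cast hsi.trans h1)
        rw [div_le_iff₀ (by positivity)] at h8
        rw [mul_div_assoc', div_le_iff₀ hs0]
        linarith
      calc (C' + 2) * τ ≤ (C' + 2) * (Ct * Q / s * g s) := by gcongr
        _ = (C' + 2) * (Ct * Q / s) * g s := by ring
        _ ≤ c₁ / 4 * β * g s := by gcongr
        _ ≤ c₁ / 4 * √((s : ℝ) / r) ^ n * g s := by gcongr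
        _ = _ := by ring
    have hεv : ε * Q ≤ √((s : ℝ) / r) ^ n / 8 := by
      rw [hε]
      linarith
    obtain ⟨k1, k2⟩ := num_good hc₁ hc₁1 hC₁' hQ hv hκ hκ1 hε0 hεv hgn h4 hC' hτ htail hlow hup
    refine ⟨k2, le_trans ?_ k1⟩
    obtain ⟨x, hxdef⟩ : ∃ x : ℝ, x = s / (s + r : ℕ) := ⟨_, rfl⟩
    have hx0 : 0 < x := by rw [hxdef]; positivity
    have hx2 : x ≤ 1 / 2 := by
      rw [hxdef]
      push_cast
      rw [div_le_div_iff₀ (by positivity) (by norm_num)]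
      linarith
    have hxu : x ≤ √((s : ℝ) / r) := by
      have h9 : x ≤ √((s : ℝ) / r) ^ 2 := by
        rw [Real.sq_sqrt (by positivity), hxdef]
        push_cast
        gcongr
        linarith
      have h10 : 0 ≤ √((s : ℝ) / r) := Real.sqrt_nonneg _
      nlinarith
    have hxP : x ^ M ≤ √((s : ℝ) / r) ^ n * (c₁ / 2) := by
      rw [hM, pow_add]
      have : x ^ m ≤ c₁ / 2 := (pow_le_pow_left₀ hx0.le hx2 m).trans hm.le
      gcongr
    have e : 1 / Q / ((s + r : ℕ) : ℝ) ^ M = x ^ M * (1 / Q / (s : ℝ) ^ M) := by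
      rw [hxdef, div_pow]
      field_simp
    rw [e]
    calc x ^ M * (1 / Q / (s : ℝ) ^ M) ≤ √((s : ℝ) / r) ^ n * (c₁ / 2) * g s := by gcongr
      _ = _ := by ring
  have start : p si ≤ Q * g si ∧ 1 / Q / (si : ℝ) ^ M ≤ g si := by
    refine ⟨hsi1, ?_⟩
    have h1 : 1 / (si : ℝ) ^ M ≤ Q * g si := hsi2.trans hsi1
    rw [div_right_comm, div_le_iff₀ hQ0, mul_comm]
    exact h1
  intro t
  induction t using Nat.strong_induction_on with
  | _ t ih =>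
    intro ht
    have hl0 : 0 < 1 + lam := by omega
    obtain ⟨t', ht'⟩ : ∃ t' : ℕ, t' = t / (1 + lam) := ⟨_, rfl⟩
    have hd1 : (1 + lam) * t' ≤ t := by rw [ht']; exact Nat.mul_div_le t (1 + lam)
    have hd2 : t < (1 + lam) * (t' + 1) := by rw [ht']; exact Nat.lt_mul_div_succ t hl0
    by_cases hcase : (1 + lam) * si ≤ t'
    · have ht'1 : 1 ≤ t' := by nlinarith
      have hlt : t' < t := by nlinarith
      have hih := ih t' hlt hcase
      have hle : t' ≤ t := hlt.le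
      have h1 := step t' (t - t') (by nlinarith) (by
          have : lam * t' + t' ≤ t := by linarith
          omega) (by
          rw [Nat.cast_sub hle, hL']
          have h2 : (t : ℝ) < (1 + lam) * (t' + 1) := by exact_mod_cast hd2
          have h3 : (1 : ℝ) ≤ t' := by exact_mod_cast ht'1
          nlinarith) hih.1 hih.2
      rw [Nat.add_sub_cancel' hle] at h1
      exact h1
    · push Not at hcase
      have hle : si ≤ t := by nlinarith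
      have h1 := step si (t - si) le_rfl (by
          have : lam * si + si ≤ t := by linarith
          omega) (by
          rw [Nat.cast_sub hle, hL']
          have h2 : (t : ℝ) < (1 + lam) * (t' + 1) := by exact_mod_cast hd2
          have h3 : (t' : ℝ) + 1 ≤ (1 + lam) * si := by exact_mod_cast hcase
          have h4 : (t : ℝ) ≤ (1 + lam) * ((1 + lam) * si) := by
            refine h2.le.trans ?_
            gcongr
          have h5 : (1 : ℝ) ≤ si := by exact_mod_cast hsi0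
          nlinarith) start.1 start.2
      rw [Nat.add_sub_cancel' hle] at h1
      exact h1

/-- the second alternative -/
theorem alt2 {n m M lam S₀ : ℕ} {c₁ C₁ Q β L Ct C' ε : ℝ} {g p : ℕ → ℝ} (hc₁ : 0 < c₁) (hc₁1 : c₁ ≤ 1)
    (hC₁' : 1 ≤ C₁) (hQ : Q * c₁ = 4 * C₁) (hQ1 : 1 ≤ Q) (hβ0 : 0 < β) (hL' : L = (2 + (lam : ℝ)) ^ 2) (hlam1 : 1 ≤ lam)
    (hε0 : 0 < ε) (hε : ε * Q = β / 8) (hC' : 0 < C') (hCt1 : 0 < Ct) (hS₀1 : 1 ≤ S₀) (hM : M = n + m)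
    (hg0 : ∀ s, 0 ≤ g s) (hp0' : ∀ s, 0 ≤ p s)
    (facts : ∀ s r : ℕ, S₀ ≤ s → lam * s ≤ r → (r : ℝ) ≤ L * s → ∃ κ τ : ℝ, 0 ≤ κ ∧ C₁ * κ * Q ≤ 1 / 8 ∧ 0 ≤ τ ∧
      τ ≤ Ct / (s : ℝ) ^ (M + 1) ∧ β ≤ √((s : ℝ) / r) ^ n ∧ √((s : ℝ) / r) ≤ 1 ∧
      c₁ * √((s : ℝ) / r) ^ n * g s - 2 * τ ≤ g (s + r) ∧
      p (s + r) ≤ C₁ * √((s : ℝ) / r) ^ n * (g s + κ * p s) + ε * p s + C' * τ)
    (hlamn : 2 * n ≤ lam) (hL9 : 9 ≤ L) (hβ1 : β ≤ 1) {c α : ℝ} (hc0 : 0 < c) (hcL : 6 / 7 ≤ (1 + L) ^ (-c)) (hα : α = (n : ℝ) / 2 + c)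
    (hα0 : 0 < α) (hαM : α ≤ M) (hε1 : ε ≤ 1) (hgp : ∀ s, 1 ≤ s → g s ≤ p s)
    (hcase : ∀ s, S₀ ≤ s → p s ≤ Q * g s → p s < 1 / (s : ℝ) ^ M) :
    ∃ K : ℝ, ∀ t : ℕ, 1 ≤ t → p t ≤ K * (t : ℝ) ^ (-α) := by
  have hQ0 : 0 < Q := by linarith
  have hL0 : 0 < L := by linarith
  obtain ⟨K₁, hK₁, hK₁'⟩ : ∃ K₁ : ℝ, 0 ≤ K₁ ∧ ∀ t : ℕ, 1 ≤ t → t < (1 + lam) * S₀ → p t ≤ K₁ * (t : ℝ) ^ (-α) := by
    refine ⟨∑ t ∈ range ((1 + lam) * S₀), p t * (t : ℝ) ^ α, sum_nonneg fun t _ => ?_, fun t ht1 ht2 => ?_⟩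
    · exact mul_nonneg (hp0' t) (by positivity)
    · have ht0 : (0 : ℝ) < t := by exact_mod_cast ht1
      rw [Real.rpow_neg ht0.le, ← div_eq_mul_inv, le_div_iff₀ (by positivity)]
      exact single_le_sum (f := fun t : ℕ => p t * (t : ℝ) ^ α)
        (fun t _ => mul_nonneg (hp0' t) (by positivity)) (mem_range.2 ht2)
  obtain ⟨W, hW⟩ : ∃ W : ℝ, W = (1 + L) ^ α := ⟨_, rfl⟩
  have hW0 : 0 < W := by rw [hW]; positivity
  obtain ⟨K, hK⟩ : ∃ K : ℝ, K = K₁ + 8 * (2 * C₁ + 1 + C' * Ct) * W := ⟨_, rfl⟩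
  have hK2 : 8 * (2 * C₁ + 1 + C' * Ct) * W ≤ K := by rw [hK]; linarith
  have hC'Ct : 0 < C' * Ct := by positivity
  have hC₁0 : 0 < C₁ := by linarith
  have hK0 : 0 < K := lt_of_lt_of_le (by positivity) hK2
  refine ⟨K, fun t => ?_⟩
  induction t using Nat.strong_induction_on with
  | _ t ih =>
    intro ht1
    have ht0 : (0 : ℝ) < t := by exact_mod_cast ht1
    have htα : 0 < (t : ℝ) ^ (-α) := by positivity
    by_cases ht : t < (1 + lam) * S₀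
    · refine (hK₁' t ht1 ht).trans ?_
      have : K₁ ≤ K := by rw [hK]; linarith [(by positivity : 0 < 8 * (2 * C₁ + 1 + C' * Ct) * W)]
      gcongr
    · push Not at ht
      have hl0 : 0 < 1 + lam := by omega
      obtain ⟨s, hs⟩ : ∃ s : ℕ, s = t / (1 + lam) := ⟨_, rfl⟩
      have hd1 : (1 + lam) * s ≤ t := by rw [hs]; exact Nat.mul_div_le t (1 + lam)
      have hd2 : t < (1 + lam) * (s + 1) := by rw [hs]; exact Nat.lt_mul_div_succ t hl0
      have hsS : S₀ ≤ s := by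
        rw [hs]
        exact (Nat.le_div_iff_mul_le hl0).2 (by linarith)
      have hs1 : 1 ≤ s := hS₀1.trans hsS
      have hs0 : (0 : ℝ) < s := by exact_mod_cast hs1
      have hlt : s < t := by nlinarith
      obtain ⟨r, hr⟩ : ∃ r : ℕ, t = s + r := ⟨t - s, by omega⟩
      have hlr : lam * s ≤ r := by nlinarith
      have hrL : (r : ℝ) ≤ L * s := by
        rw [hL']
        have h2 : (t : ℝ) < (1 + lam) * (s + 1) := by exact_mod_cast hd2
        rw [hr] at h2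
        push_cast at h2
        have h3 : (1 : ℝ) ≤ s := by exact_mod_cast hs1
        nlinarith
      have htL : (t : ℝ) ≤ (1 + L) * s := by
        rw [hr]
        push_cast
        linarith
      have hcomp : (s : ℝ) ^ (-α) ≤ W * (t : ℝ) ^ (-α) := by
        rw [hW]
        exact rpow_neg_comp hα0.le hs1 ht1 hL0.le htL
      obtain ⟨κ, τ, hκ, hκ1, hτ, hτ1, hβu, hu1, hlow, hup⟩ := facts s r hsS hlr hrL
      have hp0 := hp0' s
      have hv : 0 < √((s : ℝ) / r) ^ n := lt_of_lt_of_le hβ0 hβu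
      have hv1 : √((s : ℝ) / r) ^ n ≤ 1 := pow_le_one₀ (Real.sqrt_nonneg _) hu1
      have hτ2 : C' * τ ≤ C' * Ct * (s : ℝ) ^ (-α) := by
        have h3 : τ ≤ Ct * (s : ℝ) ^ (-α) := by
          refine hτ1.trans ?_
          rw [div_eq_mul_one_div]
          have h4 : 1 / (s : ℝ) ^ (M + 1) ≤ (s : ℝ) ^ (-α) := pow_neg_le hs1 (by push_cast; linarith)
          gcongr
        calc C' * τ ≤ C' * (Ct * (s : ℝ) ^ (-α)) := by gcongr
          _ = _ := by ring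
      rw [← hr] at hup
      by_cases hgood : p s ≤ Q * g s
      · have hps := hcase s hsS hgood
        have hps2 : p s ≤ (s : ℝ) ^ (-α) := hps.le.trans (pow_neg_le hs1 hαM)
        have hgs : g s ≤ p s :=
          hgp s hs1
        have hκ2 : κ ≤ 1 := by
          have h3 : κ ≤ C₁ * κ * Q := by
            calc κ = 1 * κ * 1 := by ring
              _ ≤ C₁ * κ * Q := by gcongr
          linarith
        have h4 : p t ≤ (2 * C₁ + 1) * p s + C' * τ := by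
          refine hup.trans ?_
          have h5 : C₁ * √((s : ℝ) / r) ^ n * (g s + κ * p s) ≤ C₁ * 1 * (p s + 1 * p s) := by
            have := hg0 s
            gcongr
          have h6 : ε * p s ≤ 1 * p s := by gcongr
          linarith
        have h5 : (2 * C₁ + 1) * p s ≤ (2 * C₁ + 1) * (s : ℝ) ^ (-α) := by gcongr
        calc p t ≤ (2 * C₁ + 1) * (s : ℝ) ^ (-α) + C' * Ct * (s : ℝ) ^ (-α) := by linarith
          _ = (2 * C₁ + 1 + C' * Ct) * (s : ℝ) ^ (-α) := by ring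
          _ ≤ (2 * C₁ + 1 + C' * Ct) * (W * (t : ℝ) ^ (-α)) := by gcongr
          _ ≤ K * (t : ℝ) ^ (-α) := by
              have h6 : (2 * C₁ + 1 + C' * Ct) * W ≤ K := by
                refine le_trans ?_ hK2
                have : 0 < (2 * C₁ + 1 + C' * Ct) * W := by positivity
                linarith
              calc (2 * C₁ + 1 + C' * Ct) * (W * (t : ℝ) ^ (-α)) = (2 * C₁ + 1 + C' * Ct) * W * (t : ℝ) ^ (-α) := by ring
                _ ≤ K * (t : ℝ) ^ (-α) := by gcongr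
      · push Not at hgood
        have hεv : ε * Q ≤ √((s : ℝ) / r) ^ n / 8 := by
          rw [hε]
          linarith
        have h3 := num_bad hc₁ hc₁1 hC₁' hQ hv hκ hκ1 hε0 hεv hp0 hgood.le hup
        have hih := ih s hlt hs1
        have h4 := step_factor hs1 hlam1 hlamn hlr hc0.le (by linarith : (1 : ℝ) ≤ L) hrL hcL
        rw [← hr, ← hα] at h4
        have e : ((s : ℝ) / t) ^ α * (s : ℝ) ^ (-α) = (t : ℝ) ^ (-α) := by
          rw [Real.div_rpow hs0.le ht0.le, Real.rpow_neg hs0.le, Real.rpow_neg ht0.le]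
          have : 0 < (s : ℝ) ^ α := by positivity
          field_simp
        calc p t ≤ 1 / 2 * (√((s : ℝ) / r) ^ n * p s) + C' * τ := h3
          _ = 1 / 2 * √((s : ℝ) / r) ^ n * p s + C' * τ := by ring
          _ ≤ 7 / 8 * ((s : ℝ) / t) ^ α * (K * (s : ℝ) ^ (-α)) + C' * Ct * (s : ℝ) ^ (-α) := by gcongr
          _ = 7 / 8 * K * (((s : ℝ) / t) ^ α * (s : ℝ) ^ (-α)) + C' * Ct * (s : ℝ) ^ (-α) := by ring
          _ = 7 / 8 * K * (t : ℝ) ^ (-α) + C' * Ct * (s : ℝ) ^ (-α) := by rw [e]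
          _ ≤ 7 / 8 * K * (t : ℝ) ^ (-α) + C' * Ct * (W * (t : ℝ) ^ (-α)) := by gcongr
          _ = (7 / 8 * K + C' * Ct * W) * (t : ℝ) ^ (-α) := by ring
          _ ≤ K * (t : ℝ) ^ (-α) := by
              have h6 : C' * Ct * W ≤ 1 / 8 * K := by
                have h7 : 8 * (C' * Ct * W) ≤ 8 * (2 * C₁ + 1 + C' * Ct) * W := by
                  have : 0 < 8 * (2 * C₁ + 1) * W := by positivity
                  linarith
                linarith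
              gcongr
              linarith


/-- JOB GO-Dich -/
theorem dich : S_DichJ := by
  intro hUp hLow hHg k
  obtain ⟨C₀, hC₀, hUp⟩ := hUp k
  obtain ⟨c₁, hc₁, hc₁1, A₀, hA₀, hLow⟩ := hLow k
  obtain ⟨C₁, hC₁, hC₁'⟩ : ∃ C₁ : ℝ, C₀ ≤ C₁ ∧ 1 ≤ C₁ := ⟨max C₀ 1, le_max_left _ _, le_max_right _ _⟩
  obtain ⟨Q, hQ⟩ : ∃ Q : ℝ, Q * c₁ = 4 * C₁ := ⟨4 * C₁ / c₁, div_mul_cancel₀ _ hc₁.ne'⟩
  have hQ1 : 1 ≤ Q := by
    by_contra hc
    push Not at hc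
    have h1 : Q * c₁ ≤ 1 * c₁ := by gcongr
    linarith
  have hQ0 : 0 < Q := by linarith
  have hCQ : 1 ≤ C₁ * Q := by nlinarith
  obtain ⟨A, hA, hA1⟩ : ∃ A : ℝ, A₀ ≤ A ∧ 32 * (C₁ * Q) ≤ A := ⟨max A₀ (32 * (C₁ * Q)), le_max_left _ _, le_max_right _ _⟩
  have hA0 : 0 < A := by linarith
  obtain ⟨lam₀, hlam₀, hLow⟩ := hLow A A hA hA
  obtain ⟨lam, hlam, hlamn, hlamQ⟩ : ∃ lam : ℕ, lam₀ ≤ lam ∧ 2 * nn k ≤ lam ∧ (16 * (C₁ * Q)) ^ 2 ≤ (lam : ℝ) := by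
    obtain ⟨N, hN⟩ := exists_nat_ge ((16 * (C₁ * Q)) ^ 2)
    refine ⟨max lam₀ (max (2 * nn k) N), le_max_left _ _, (le_max_left _ _).trans (le_max_right _ _), hN.trans ?_⟩
    exact_mod_cast (le_max_right _ _).trans (le_max_right _ _)
  have hlam1 : 1 ≤ lam := hlam₀.trans hlam
  have hlamR : (1 : ℝ) ≤ lam := by exact_mod_cast hlam1
  obtain ⟨L₂, hL₂⟩ : ∃ L₂ : ℕ, L₂ = (2 + lam) ^ 2 := ⟨_, rfl⟩
  have hlamL : lam₀ ≤ L₂ := by
    rw [hL₂]
    nlinarith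
  obtain ⟨ρl, hρl, sl, hsl, hLow⟩ := hLow L₂ hlamL
  obtain ⟨L, hL⟩ : ∃ L : ℝ, L = (L₂ : ℝ) := ⟨_, rfl⟩
  have hL' : L = (2 + (lam : ℝ)) ^ 2 := by
    rw [hL, hL₂]
    push_cast
    ring
  have hL9 : 9 ≤ L := by
    rw [hL']
    nlinarith
  have hL0 : 0 < L := by linarith
  obtain ⟨β, hβ⟩ : ∃ β : ℝ, β = (1 / L) ^ nn k := ⟨_, rfl⟩
  have hβ0 : 0 < β := by rw [hβ]; positivity
  have hβ1 : β ≤ 1 := by
    rw [hβ]
    exact pow_le_one₀ (by positivity) (by rw [div_le_one hL0]; linarith)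
  obtain ⟨ε, hε⟩ : ∃ ε : ℝ, ε * Q = β / 8 := ⟨β / 8 / Q, div_mul_cancel₀ _ hQ0.ne'⟩
  have hε0 : 0 < ε := by
    by_contra hc
    push Not at hc
    have : ε * Q ≤ 0 := mul_nonpos_of_nonpos_of_nonneg hc hQ0.le
    linarith
  have hε1 : ε ≤ 1 := by
    have : ε ≤ ε * Q := le_mul_of_one_le_right hε0.le hQ1
    linarith
  obtain ⟨ρu, hρu, C', hC', su, hsu, hUp⟩ := hUp ε hε0
  obtain ⟨m, hm⟩ := exists_pow_lt_of_lt_one (half_pos hc₁) (by norm_num : (1 / 2 : ℝ) < 1)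
  have hm1 : 1 ≤ m := by
    by_contra hc
    have : m = 0 := by omega
    rw [this, pow_zero] at hm
    linarith
  have hlog : 0 < Real.log (1 + L) := Real.log_pos (by linarith)
  have hlog76 : 0 < Real.log (7 / 6) := Real.log_pos (by norm_num)
  obtain ⟨c, hc⟩ : ∃ c : ℝ, c * Real.log (1 + L) = Real.log (7 / 6) := ⟨_, div_mul_cancel₀ _ hlog.ne'⟩
  have hc0 : 0 < c := by
    by_contra hcc
    push Not at hcc
    have : c * Real.log (1 + L) ≤ 0 := mul_nonpos_of_nonpos_of_nonneg hcc hlog.le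
    linarith
  have hc1 : c ≤ 1 := by
    by_contra hcc
    push Not at hcc
    have h1 : Real.log (7 / 6) ≤ Real.log (1 + L) := Real.log_le_log (by norm_num) (by linarith)
    nlinarith
  have hcL : 6 / 7 ≤ (1 + L) ^ (-c) := by
    rw [Real.rpow_def_of_pos (by linarith), mul_neg, mul_comm, hc, Real.exp_neg, Real.exp_log (by norm_num)]
    norm_num
  refine ⟨c, hc0, nn k + m + 1, Q, hQ1, min ρu ρl, lt_min hρu hρl, fun ι _ a b htl => ?_⟩
  obtain ⟨Ct₀, s₁, htl⟩ := htl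
  obtain ⟨Ct, hCt, hCt1⟩ : ∃ Ct : ℝ, Ct₀ ≤ Ct ∧ 0 < Ct := ⟨max Ct₀ 1, le_max_left _ _, lt_of_lt_of_le one_pos (le_max_right _ _)⟩
  obtain ⟨M, hM⟩ : ∃ M : ℕ, M = nn k + m := ⟨_, rfl⟩
  rw [← hM] at htl
  obtain ⟨S₀, hS1, hS2, hS3, hS4⟩ : ∃ S₀ : ℕ, su ≤ S₀ ∧ sl ≤ S₀ ∧ s₁ ≤ S₀ ∧
      (C' + 2) * Ct * Q * 4 / (c₁ * β) ≤ (S₀ : ℝ) := by
    obtain ⟨N, hN⟩ := exists_nat_ge ((C' + 2) * Ct * Q * 4 / (c₁ * β))
    refine ⟨su + sl + s₁ + N, by omega, by omega, by omega, hN.trans ?_⟩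
    exact_mod_cast (by omega : N ≤ su + sl + s₁ + N)
  have hS₀1 : 1 ≤ S₀ := hsu.trans hS1
  -- the estimates of a step
  have facts : ∀ s r : ℕ, S₀ ≤ s → lam * s ≤ r → (r : ℝ) ≤ L * s → ∃ κ τ : ℝ, 0 ≤ κ ∧ C₁ * κ * Q ≤ 1 / 8 ∧ 0 ≤ τ ∧
      τ ≤ Ct / (s : ℝ) ^ (M + 1) ∧ β ≤ √((s : ℝ) / r) ^ nn k ∧ √((s : ℝ) / r) ≤ 1 ∧
      c₁ * √((s : ℝ) / r) ^ nn k * hg A A a b s - 2 * τ ≤ hg A A a b (s + r) ∧
      ph a b (s + r) ≤ C₁ * √((s : ℝ) / r) ^ nn k * (hg A A a b s + κ * ph a b s) + ε * ph a b s + C' * τ := by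
    intro s r h1 h2 h3
    have hs1 : 1 ≤ s := hS₀1.trans h1
    have hs0 : (0 : ℝ) < s := by exact_mod_cast hs1
    have hsr : s ≤ r := by nlinarith
    have hr0 : (0 : ℝ) < r := by exact_mod_cast (hs1.trans hsr)
    have hsr' : (s : ℝ) ≤ r := by exact_mod_cast hsr
    have h2' : (lam : ℝ) * s ≤ r := by exact_mod_cast h2
    obtain ⟨u, hudef⟩ : ∃ u : ℝ, u = √((s : ℝ) / r) := ⟨_, rfl⟩
    have hu0 : 0 < u := by rw [hudef]; exact Real.sqrt_pos.2 (by positivity)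
    have hu2 : u ^ 2 = s / r := by rw [hudef]; exact Real.sq_sqrt (by positivity)
    have hu1 : u ≤ 1 := by
      rw [hudef]
      refine Real.sqrt_le_one.2 ?_
      rw [div_le_one hr0]
      exact hsr'
    have huM : u * (16 * (C₁ * Q)) ≤ 1 := by
      have h7 : (u * (16 * (C₁ * Q))) ^ 2 ≤ 1 := by
        rw [mul_pow, hu2]
        calc (s : ℝ) / r * (16 * (C₁ * Q)) ^ 2 ≤ s / r * lam := by gcongr
          _ = lam * s / r := by ring
          _ ≤ 1 := by rw [div_le_one hr0]; exact h2'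
      have h8 : 0 < u * (16 * (C₁ * Q)) := by positivity
      nlinarith
    have huL : 1 / L ≤ u := by
      have h8 : 1 / L ≤ (s : ℝ) / r := by
        rw [div_le_div_iff₀ hL0 hr0]
        linarith
      have h9 : u ^ 2 ≤ u := by nlinarith
      rw [hu2] at h9
      exact h8.trans h9
    have hβu : β ≤ u ^ nn k := by
      rw [hβ]
      exact pow_le_pow_left₀ (by positivity) huL _
    rw [← hudef]
    have hup := hUp s r (hS1.trans h1) hsr ι a b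
    have hr2 : r ≤ L₂ * s := by
      rw [hL] at h3
      exact_mod_cast h3
    have hl := hLow s r (hS2.trans h1) ((Nat.mul_le_mul_right s hlam).trans h2) hr2 ι a b
    rw [← hudef] at hup hl
    have htl1 : tl ρl a b s r ≤ tl (min ρu ρl) a b s r := tl_anti (min_le_right _ _) a b s r
    have htl2 : tl ρu a b s r ≤ tl (min ρu ρl) a b s r := tl_anti (min_le_left _ _) a b s r
    have hg1 := (hHg k A A (hA₀.trans hA) (hA₀.trans hA) s hs1 ι a b).2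
    have hp0 := ph_nonneg a b s
    refine ⟨2 / A + u, tl (min ρu ρl) a b s r, by positivity, ?_, tl_nonneg _ a b s r, ?_, hβu, hu1, ?_, ?_⟩
    · have h4 : 2 / A * (C₁ * Q) ≤ 1 / 16 := by
        rw [div_mul_eq_mul_div, div_le_div_iff₀ hA0 (by norm_num)]
        linarith
      have e : C₁ * (2 / A + u) * Q = 2 / A * (C₁ * Q) + u * (C₁ * Q) := by ring
      rw [e]
      linarith
    · refine (htl s r (hS3.trans h1) hsr).trans ?_
      gcongr
    · linarith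
    · have hun : 0 < u ^ nn k := by positivity
      have h5 : C₀ * (u ^ nn k * hh a b s + u ^ (nn k + 1) * ph a b s) ≤
          C₁ * (u ^ nn k * (hg A A a b s + (1 / A + 1 / A) * ph a b s) + u ^ (nn k + 1) * ph a b s) := by
        have := hh_nonneg a b s
        gcongr
      have h6 : ε * pp a b s ≤ ε * ph a b s := by
        have := pp_le_ph a b s
        gcongr
      have h7 : C' * tl ρu a b s r ≤ C' * tl (min ρu ρl) a b s r := by gcongr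
      have e : C₁ * (u ^ nn k * (hg A A a b s + (1 / A + 1 / A) * ph a b s) + u ^ (nn k + 1) * ph a b s) =
          C₁ * u ^ nn k * (hg A A a b s + (2 / A + u) * ph a b s) := by ring
      rw [e] at h5
      linarith
  by_cases hcase : ∃ s : ℕ, S₀ ≤ s ∧ ph a b s ≤ Q * hg A A a b s ∧ 1 / (s : ℝ) ^ M ≤ ph a b s
  · right
    obtain ⟨si, hsi, hsi1, hsi2⟩ := hcase
    have hsi0 : 1 ≤ si := hS₀1.trans hsi
    have main := alt1 hc₁ hc₁1 hC₁' hQ hQ1 hβ0 hL' hlam1 hε0 hε hC' hCt1 hS₀1 hM (hg_nonneg A A a b) (ph_nonneg a b) facts hm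
      hS4 hsi hsi1 hsi2
    refine ⟨(1 + lam) * si, M, 1 / Q, by nlinarith, by positivity, fun t ht => ?_⟩
    obtain ⟨h1, h2⟩ := main t ht
    have ht1 : 1 ≤ t := by nlinarith
    have h3 := (hHg k A A (hA₀.trans hA) (hA₀.trans hA) t ht1 ι a b).1
    exact ⟨h1.trans (by gcongr), h2.trans h3⟩
  · left
    push Not at hcase
    obtain ⟨α, hα⟩ : ∃ α : ℝ, α = (nn k : ℝ) / 2 + c := ⟨_, rfl⟩
    have hα0 : 0 < α := by
      have : (0 : ℝ) ≤ nn k := Nat.cast_nonneg _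
      rw [hα]
      linarith
    have hαM : α ≤ M := by
      have h1 : (0 : ℝ) ≤ nn k := Nat.cast_nonneg _
      have h2 : (1 : ℝ) ≤ m := by exact_mod_cast hm1
      rw [hα, hM]
      push_cast
      linarith
    rw [← hα]
    exact alt2 hc₁ hc₁1 hC₁' hQ hQ1 hβ0 hL' hlam1 hε0 hε hC' hCt1 hS₀1 hM (hg_nonneg A A a b) (ph_nonneg a b) facts
      hlamn hL9 hβ1 hc0 hcL hα hα0 hαM hε1
      (fun s hs => (hHg k A A (hA₀.trans hA) (hA₀.trans hA) s hs ι a b).1.trans (hh_le_ph a b hs)) hcase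

end Pool.Agent.Q299.GO
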