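import Pool.Agent.Q74.GO.Stm2
import Pool.Agent.Q16.GO.Van

/-! # Project GO (helper74), job GO-Hg: the other configurations -/

set_option autoImplicit false

namespace Pool.Agent.Q299.GO

open Finset
open Pool.Agent.Q74.KP Pool.Agent.Q74.SF Pool.Agent.Q74.GO
open Pool.Agent.Q16.GO (ev_mono ev_mul ev_add wt_one_le diff_le vd_abs_le card_pairs)

variable {k : ℕ}

/-- the Vandermonde product if the differences are at most `w` and one of them is at most `c w` -/
theorem vR_abs_le_one {x : Fin k → ℝ} {w c : ℝ} (hc : 0 ≤ c) (hw : 0 ≤ w) (h : ∀ i j, i < j → |x j - x i| ≤ w)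
    {i₀ j₀ : Fin k} (hij : i₀ < j₀) (h0 : |x j₀ - x i₀| ≤ c * w) : |vR x| ≤ c * w ^ nn k := by
  have e : ∏ i : Fin k, ∏ j ∈ Ioi i, (if i = i₀ ∧ j = j₀ then c else 1) = c := by
    rw [prod_eq_single i₀, prod_eq_single j₀]
    · simp
    · intro j _ hj
      rw [if_neg]
      exact fun h => hj h.2
    · intro h
      exact absurd (mem_Ioi.2 hij) h
    · intro i _ hi
      apply prod_eq_one
      intro j _
      rw [if_neg]
      exact fun h => hi h.1
    · intro h
      exact absurd (mem_univ _) h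
  unfold vR
  rw [abs_prod]
  calc ∏ i, |∏ j ∈ Ioi i, (x j - x i)| ≤ ∏ i : Fin k, ∏ j ∈ Ioi i, (w * (if i = i₀ ∧ j = j₀ then c else 1)) := by
        refine prod_le_prod (fun i _ => abs_nonneg _) fun i _ => ?_
        rw [abs_prod]
        refine prod_le_prod (fun j _ => abs_nonneg _) fun j hj => ?_
        by_cases hh : i = i₀ ∧ j = j₀
        · rw [if_pos hh, hh.1, hh.2]
          linarith
        · rw [if_neg hh, mul_one]
          exact h i j (mem_Ioi.1 hj)
    _ = (∏ i : Fin k, w ^ (Ioi i).card) * c := by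
        simp only [prod_mul_distrib, prod_const]
        rw [e]
    _ = c * w ^ nn k := by rw [prod_pow_eq_pow_sum, card_pairs, mul_comm]

theorem gi_le_one (A A' : ℝ) (s : ℕ) (z : Fin k → ℤ) : gi A A' s z ≤ 1 := by
  classical
  unfold gi
  split_ifs <;> norm_num

theorem gi_nonneg (A A' : ℝ) (s : ℕ) (z : Fin k → ℤ) : 0 ≤ gi A A' s z := by
  classical
  unfold gi
  split_ifs <;> norm_num

theorem other {A A' : ℝ} (hA : 1 ≤ A) (hA' : 1 ≤ A') {s : ℕ} (hs : 1 ≤ s) (z : Fin k → ℤ) :
    |vd z| ≤ gi A A' s z * |vd z| + √(s : ℝ) ^ nn k * (1 / A + 1 / A') * wt s z ^ (nn k + 1) := by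
  classical
  have hs0 : 0 < √(s : ℝ) := Real.sqrt_pos.2 (by exact_mod_cast hs)
  have hw := wt_one_le s z
  have hw0 : 0 < wt s z := by linarith
  have hA0 : 0 < A := by linarith
  have hA0' : 0 < A' := by linarith
  have hR : 0 ≤ √(s : ℝ) ^ nn k * (1 / A + 1 / A') * wt s z ^ (nn k + 1) := by positivity
  by_cases hg : Gd A A' s z
  · unfold gi
    rw [if_pos hg, one_mul]
    linarith
  · unfold gi
    rw [if_neg hg, zero_mul, zero_add]
    unfold Gd at hg
    by_cases h1 : wt s z ≤ A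
    · have h2 : ∃ i j, i ≠ j ∧ |(z i : ℝ) - z j| < √(s : ℝ) / A' := by
        by_contra hc
        push Not at hc
        exact hg ⟨h1, fun i j hij => hc i j hij⟩
      obtain ⟨i, j, hij, hlt⟩ := h2
      have key : ∃ i₀ j₀ : Fin k, i₀ < j₀ ∧ |((z j₀ : ℤ) : ℝ) - z i₀| ≤ 1 / A' * (√(s : ℝ) * wt s z) := by
        have h3 : √(s : ℝ) / A' ≤ 1 / A' * (√(s : ℝ) * wt s z) := by
          rw [div_eq_mul_one_div, mul_comm]
          apply mul_le_mul_of_nonneg_left _ (by positivity)
          exact le_mul_of_one_le_right hs0.le hw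
        rcases lt_or_gt_of_ne hij with hlt' | hlt'
        · exact ⟨i, j, hlt', by rw [abs_sub_comm]; exact hlt.le.trans h3⟩
        · exact ⟨j, i, hlt', hlt.le.trans h3⟩
      obtain ⟨i₀, j₀, h0, h4⟩ := key
      have h5 : |vd z| ≤ 1 / A' * (√(s : ℝ) * wt s z) ^ nn k :=
        vR_abs_le_one (by positivity) (by positivity) (fun i j h => diff_le hs z h) h0 h4
      refine h5.trans ?_
      calc 1 / A' * (√(s : ℝ) * wt s z) ^ nn k = √(s : ℝ) ^ nn k * (1 / A') * wt s z ^ nn k := by
            rw [mul_pow]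
            ring
        _ ≤ √(s : ℝ) ^ nn k * (1 / A + 1 / A') * wt s z ^ (nn k + 1) := by
            have h6 : 1 / A' ≤ 1 / A + 1 / A' := le_add_of_nonneg_left (by positivity)
            have h7 : wt s z ^ nn k ≤ wt s z ^ (nn k + 1) := pow_le_pow_right₀ hw (Nat.le_succ _)
            gcongr
    · push Not at h1
      refine (vd_abs_le hs z).trans ?_
      have h6 : 1 ≤ 1 / A * wt s z := by
        rw [one_div_mul_eq_div, le_div_iff₀ hA0, one_mul]
        exact h1.le
      calc √(s : ℝ) ^ nn k * wt s z ^ nn k ≤ √(s : ℝ) ^ nn k * wt s z ^ nn k * (1 / A * wt s z) :=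
            le_mul_of_one_le_right (by positivity) h6
        _ = √(s : ℝ) ^ nn k * (1 / A) * wt s z ^ (nn k + 1) := by ring
        _ ≤ √(s : ℝ) ^ nn k * (1 / A + 1 / A') * wt s z ^ (nn k + 1) := by
            have h6 : 1 / A ≤ 1 / A + 1 / A' := le_add_of_nonneg_right (by positivity)
            gcongr

/-- JOB GO-Hg -/
theorem hg_thm : S_Hg := by
  intro k A A' hA hA' s hs ι _ a b
  have hs0 : 0 < √(s : ℝ) ^ nn k := pow_pos (Real.sqrt_pos.2 (by exact_mod_cast hs)) _
  constructor
  · unfold hg hh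
    apply div_le_div_of_nonneg_right _ hs0.le
    apply ev_mono
    intro z
    exact mul_le_of_le_one_left (abs_nonneg _) (gi_le_one A A' s z)
  · unfold hg hh ph
    rw [div_le_iff₀ hs0, add_mul, div_mul_cancel₀ _ hs0.ne']
    have h1 := ev_mono a b s (fun z => other hA hA' hs z)
    rw [ev_add, ev_mul] at h1
    refine h1.trans (le_of_eq ?_)
    ring

end Pool.Agent.Q299.GO
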