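import Pool.Agent.Q299.GO.Hg

/-! # Project GO (helper74), job GO-Sup: superpolynomial decay -/

set_option autoImplicit false

namespace Pool.Agent.Q299.GO

open Finset
open Pool.Agent.Q74.KP Pool.Agent.Q74.SF Pool.Agent.Q74.GO
open Pool.Agent.Q16.GO (ev_mono ev_mul ev_add ev_nonneg wt_one_le tl_nonneg)

variable {k : ℕ}

theorem gi_wt (A A' : ℝ) (m s : ℕ) (z : Fin k → ℤ) (hA : 0 ≤ A) : gi A A' s z * wt s z ^ m ≤ A ^ m * gi A A' s z := by
  classical
  unfold gi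
  by_cases h : Gd A A' s z
  · rw [if_pos h, one_mul, mul_one]
    exact pow_le_pow_left₀ (by linarith [wt_one_le s z]) h.1 m
  · rw [if_neg h, zero_mul, mul_zero]

/-- JOB GO-Sup -/
theorem sup_thm : S_SupJ := by
  intro hUp k p
  obtain ⟨m, hm⟩ : ∃ m : ℕ, m = 2 * p + 2 := ⟨_, rfl⟩
  obtain ⟨C, hC, hUp⟩ := hUp k m
  obtain ⟨lam, hlam⟩ := exists_nat_ge (max 1 (2 * (3 * C + 1) * 4 ^ p))
  have hlamR : (1 : ℝ) ≤ lam := (le_max_left _ _).trans hlam
  have hlam2 : 2 * (3 * C + 1) * 4 ^ p ≤ (lam : ℝ) := (le_max_right _ _).trans hlam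
  have hlam1 : 1 ≤ lam := by exact_mod_cast hlamR
  have hlam0 : (0 : ℝ) < lam := by linarith
  obtain ⟨A, hA⟩ : ∃ A : ℝ, A = (lam : ℝ) ^ (p + 1) := ⟨_, rfl⟩
  have hA1 : 1 ≤ A := by rw [hA]; exact one_le_pow₀ hlamR
  have hA0 : 0 < A := by linarith
  obtain ⟨ρ, hρ, s₀, hs₀, hUp⟩ := hUp A (A ^ (m + 1)) (1 / A ^ (m + 1)) hA1 (one_le_pow₀ hA1) (by positivity)
  refine ⟨A, A ^ (m + 1), hA1, one_le_pow₀ hA1, ρ, hρ, fun ι _ a b H => ?_⟩
  obtain ⟨Ct₀, s₁, H⟩ := H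
  obtain ⟨Ct, hCt, hCt1⟩ : ∃ Ct : ℝ, Ct₀ ≤ Ct ∧ 0 < Ct := ⟨max Ct₀ 1, le_max_left _ _, lt_of_lt_of_le one_pos (le_max_right _ _)⟩
  obtain ⟨f, hf⟩ : ∃ f : ℕ → ℝ, f = fun t => ev a b t (fun z => wt t z ^ m) := ⟨_, rfl⟩
  have hf0 : ∀ t, 0 ≤ f t := fun t => by
    rw [hf]
    exact ev_nonneg a b t fun z => pow_nonneg (by linarith [wt_one_le t z]) _
  have hpf : ∀ t, pp a b t ≤ f t := fun t => by
    rw [hf]
    exact ev_mono a b t fun z => one_le_pow₀ (wt_one_le t z)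
  -- one step
  have step : ∀ s r : ℕ, s₀ + s₁ ≤ s → lam * s ≤ r → (r : ℝ) ≤ 3 * lam * s →
      f (s + r) ≤ 1 / 2 * ((s : ℝ) / (s + r : ℕ)) ^ p * f s + A ^ m * (3 * Ct) / (s : ℝ) ^ p := by
    intro s r h1 h2 h3
    have hs1 : 1 ≤ s := by omega
    have hs0 : (0 : ℝ) < s := by exact_mod_cast hs1
    have hs1' : (1 : ℝ) ≤ s := by exact_mod_cast hs1
    have hsr : s ≤ r := by nlinarith
    have hr0 : (0 : ℝ) < r := by exact_mod_cast (hs1.trans hsr)
    have h2' : (lam : ℝ) * s ≤ r := by exact_mod_cast h2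
    have hup := hUp s r (by omega) hsr ι a b
    obtain ⟨ht, hg⟩ := H s r (by omega) hsr
    obtain ⟨-, hg'⟩ := H (s + r) (s + r) (by omega) le_rfl
    have e1 : f (s + r) ≤ ev a b (s + r) (fun z => (1 - gi A (A ^ (m + 1)) (s + r) z) * wt (s + r) z ^ m) +
        A ^ m * ev a b (s + r) (gi A (A ^ (m + 1)) (s + r)) := by
      rw [hf, ← ev_mul, ← ev_add]
      apply ev_mono
      intro z
      have := gi_wt A (A ^ (m + 1)) m (s + r) z hA0.le
      linarith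
    have hfs : ev a b s (fun z => wt s z ^ m) = f s := by rw [hf]
    rw [hfs] at hup
    -- the factor
    have e2 : √((s : ℝ) / r) ^ m ≤ 1 / A := by
      have h4 : √((s : ℝ) / r) ^ m = ((s : ℝ) / r) ^ (p + 1) := by
        have : m = 2 * (p + 1) := by omega
        rw [this, pow_mul, Real.sq_sqrt (by positivity)]
      rw [h4, hA, ← one_div_pow]
      apply pow_le_pow_left₀ (by positivity)
      rw [div_le_div_iff₀ hr0 hlam0]
      linarith
    have e3 : A ^ m * (C / A ^ (m + 1) + 1 / A ^ (m + 1)) = (C + 1) * (1 / A) := by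
      rw [pow_succ]
      field_simp
    have e4 : C / A + C * √((s : ℝ) / r) ^ m + A ^ m * (C / A ^ (m + 1) + 1 / A ^ (m + 1)) ≤ (3 * C + 1) * (1 / A) := by
      rw [e3]
      have : C * √((s : ℝ) / r) ^ m ≤ C * (1 / A) := by gcongr
      have e : C / A = C * (1 / A) := by ring
      rw [e]
      linarith
    have e5 : (3 * C + 1) * (1 / A) ≤ 1 / 2 * ((s : ℝ) / (s + r : ℕ)) ^ p := by
      have h5 : 1 / (4 * (lam : ℝ)) ≤ (s : ℝ) / (s + r : ℕ) := by
        push_cast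
        rw [div_le_div_iff₀ (by positivity) (by positivity)]
        nlinarith
      have h6 : (1 / (4 * (lam : ℝ))) ^ p ≤ ((s : ℝ) / (s + r : ℕ)) ^ p := pow_le_pow_left₀ (by positivity) h5 p
      have h7 : (3 * C + 1) * (1 / A) ≤ 1 / 2 * (1 / (4 * (lam : ℝ))) ^ p := by
        rw [hA, pow_succ, one_div_pow, mul_pow, mul_one_div, mul_one_div, div_le_div_iff₀ (by positivity) (by positivity)]
        calc (3 * C + 1) * (4 ^ p * (lam : ℝ) ^ p) = (2 * (3 * C + 1) * 4 ^ p) / 2 * (lam : ℝ) ^ p := by ring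
          _ ≤ (lam : ℝ) / 2 * (lam : ℝ) ^ p := by gcongr
          _ = 1 / 2 * ((lam : ℝ) ^ p * lam) := by ring
      refine h7.trans ?_
      gcongr
    have e6 : Ct₀ / (s : ℝ) ^ (p + 1) ≤ Ct / (s : ℝ) ^ p := by
      calc Ct₀ / (s : ℝ) ^ (p + 1) ≤ Ct / (s : ℝ) ^ (p + 1) := by gcongr
        _ ≤ Ct / (s : ℝ) ^ p := by
            apply div_le_div_of_nonneg_left hCt1.le (by positivity)
            exact pow_le_pow_right₀ hs1' (Nat.le_succ p)
    have e7 : Ct₀ / ((s + r : ℕ) : ℝ) ^ (p + 1) ≤ Ct / (s : ℝ) ^ p := by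
      calc Ct₀ / ((s + r : ℕ) : ℝ) ^ (p + 1) ≤ Ct / ((s + r : ℕ) : ℝ) ^ (p + 1) := by gcongr
        _ ≤ Ct / (s : ℝ) ^ (p + 1) := by
            apply div_le_div_of_nonneg_left hCt1.le (by positivity)
            gcongr
            omega
        _ ≤ Ct / (s : ℝ) ^ p := by
            apply div_le_div_of_nonneg_left hCt1.le (by positivity)
            exact pow_le_pow_right₀ hs1' (Nat.le_succ p)
    calc f (s + r) ≤ (C / A + C * √((s : ℝ) / r) ^ m + A ^ m * (C / A ^ (m + 1) + 1 / A ^ (m + 1))) * f s +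
          A ^ m * (2 * tl ρ a b s r) + A ^ m * ev a b (s + r) (gi A (A ^ (m + 1)) (s + r)) := by linarith
      _ ≤ 1 / 2 * ((s : ℝ) / (s + r : ℕ)) ^ p * f s + A ^ m * (2 * (Ct / (s : ℝ) ^ p)) + A ^ m * (Ct / (s : ℝ) ^ p) := by
          have h8 := e4.trans e5
          have h9 := hf0 s
          have h10 := ht.trans e6
          have h11 := hg'.trans e7
          gcongr
      _ = _ := by ring
  obtain ⟨T₀, hT₀⟩ : ∃ T₀ : ℕ, T₀ = (1 + lam) * (s₀ + s₁) := ⟨_, rfl⟩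
  obtain ⟨K₁, hK₁, hK₁'⟩ : ∃ K₁ : ℝ, 0 ≤ K₁ ∧ ∀ t : ℕ, 1 ≤ t → t < T₀ → f t ≤ K₁ / (t : ℝ) ^ p := by
    refine ⟨∑ t ∈ range T₀, f t * (t : ℝ) ^ p, sum_nonneg fun t _ => ?_, fun t ht1 ht2 => ?_⟩
    · exact mul_nonneg (hf0 t) (by positivity)
    · have ht0 : (0 : ℝ) < t := by exact_mod_cast ht1
      rw [le_div_iff₀ (by positivity)]
      exact single_le_sum (f := fun t : ℕ => f t * (t : ℝ) ^ p)
        (fun t _ => mul_nonneg (hf0 t) (by positivity)) (mem_range.2 ht2)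
  obtain ⟨K, hK⟩ : ∃ K : ℝ, K = K₁ + 2 * (A ^ m * (3 * Ct) * (4 * lam) ^ p) := ⟨_, rfl⟩
  have hW : 0 < A ^ m * (3 * Ct) * (4 * (lam : ℝ)) ^ p := by positivity
  have hK0 : 0 < K := by linarith
  refine ⟨K, fun t ht1 => (hpf t).trans ?_⟩
  induction t using Nat.strong_induction_on with
  | _ t ih =>
    have ht0 : (0 : ℝ) < t := by exact_mod_cast ht1
    by_cases ht : t < T₀
    · refine (hK₁' t ht1 ht).trans ?_
      have : K₁ ≤ K := by linarith
      gcongr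
    · push Not at ht
      have hl0 : 0 < 1 + lam := by omega
      obtain ⟨s, hs⟩ : ∃ s : ℕ, s = t / (1 + lam) := ⟨_, rfl⟩
      have hd1 : (1 + lam) * s ≤ t := by rw [hs]; exact Nat.mul_div_le t (1 + lam)
      have hd2 : t < (1 + lam) * (s + 1) := by rw [hs]; exact Nat.lt_mul_div_succ t hl0
      have hsS : s₀ + s₁ ≤ s := by
        rw [hs]
        exact (Nat.le_div_iff_mul_le hl0).2 (by rw [hT₀] at ht; linarith)
      have hs1 : 1 ≤ s := by omega
      have hs0 : (0 : ℝ) < s := by exact_mod_cast hs1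
      have hs1' : (1 : ℝ) ≤ s := by exact_mod_cast hs1
      have hlt : s < t := by nlinarith
      obtain ⟨r, hr⟩ : ∃ r : ℕ, t = s + r := ⟨t - s, by omega⟩
      have hlr : lam * s ≤ r := by nlinarith
      have hrL : (r : ℝ) ≤ 3 * lam * s := by
        have h2 : (t : ℝ) < (1 + lam) * (s + 1) := by exact_mod_cast hd2
        rw [hr] at h2
        push_cast at h2
        nlinarith
      have htL : (t : ℝ) ≤ 4 * lam * s := by
        rw [hr]
        push_cast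
        nlinarith
      have h3 := step s r hsS hlr hrL
      have hih := ih s hlt hs1
      rw [← hr] at h3
      have h4 : 1 / (s : ℝ) ^ p ≤ (4 * (lam : ℝ)) ^ p / (t : ℝ) ^ p := by
        rw [div_le_div_iff₀ (by positivity) (by positivity), one_mul, ← mul_pow]
        exact pow_le_pow_left₀ ht0.le htL p
      calc f t ≤ 1 / 2 * ((s : ℝ) / t) ^ p * f s + A ^ m * (3 * Ct) / (s : ℝ) ^ p := h3
        _ ≤ 1 / 2 * ((s : ℝ) / t) ^ p * (K / (s : ℝ) ^ p) + A ^ m * (3 * Ct) * ((4 * (lam : ℝ)) ^ p / (t : ℝ) ^ p) := by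
            have h5 : A ^ m * (3 * Ct) / (s : ℝ) ^ p = A ^ m * (3 * Ct) * (1 / (s : ℝ) ^ p) := by ring
            rw [h5]
            gcongr
        _ = (1 / 2 * K + A ^ m * (3 * Ct) * (4 * (lam : ℝ)) ^ p) / (t : ℝ) ^ p := by
            rw [div_pow]
            field_simp
        _ ≤ K / (t : ℝ) ^ p := by
            gcongr
            linarith

end Pool.Agent.Q299.GO
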